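import Pool.Agent.TH882.WM13

/-!
The k-th powers changed on a thin set of indices by random amounts which are small at all places:
at most a small power of the size, and divisible by every given modulus from some index on.
Every large integer is a sum of 4 k terms.
-/

set_option autoImplicit false

namespace Pool.Agent.Results.MP_ee77ae_nt.AdelicallySmallChanges

open MeasureTheory Filter

/-- The uniform probability measure on {0, 1, …, ⌊n^θ⌋}. -/
noncomputable def noise (θ : ℝ) (n : ℕ) : Measure ℕ :=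
  (PMF.uniformOfFinset (Finset.range (⌊(n : ℝ) ^ θ⌋₊ + 1)) (by simp)).toMeasure

/-- N is a sum of exactly s members, with positive indices, of the sequence whose n-th member is
n^k + M(n) u_n for n in Q and n^k for n outside Q. -/
def IsSum (k s : ℕ) (Q : Set ℕ) (M u : ℕ → ℕ) (N : ℕ) : Prop :=
  ∃ f : Fin s → ℕ, (∀ l, 1 ≤ f l) ∧ N = ∑ l, (f l ^ k + M (f l) * Q.indicator u (f l))

/-- For some κ > 0 and all large X, Q has at least κ X^η members in (X, 2 X] in each residue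
class modulo m. -/
def Rich (m : ℕ) (η : ℝ) (Q : Set ℕ) : Prop :=
  ∃ κ : ℝ, 0 < κ ∧ ∀ᶠ X : ℕ in atTop, ∀ r, r < m →
    κ * (X : ℝ) ^ η ≤ (({n : ℕ | n ∈ Q ∧ X < n ∧ n ≤ 2 * X ∧ n ≡ r [MOD m]}).ncard : ℝ)

/-- For some L, every interval (x, x + L] contains in each residue class modulo m an integer
outside Q. -/
def SyndeticComplement (m : ℕ) (Q : Set ℕ) : Prop :=
  ∃ L : ℕ, ∀ r, r < m → ∀ x : ℕ, ∃ n, n ∉ Q ∧ n ≡ r [MOD m] ∧ x < n ∧ n ≤ x + L

lemma exp_num : Real.exp (-3) < 1 / 20 := by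
  have h3 : (20 : ℝ) < Real.exp 3 := by
    have h4 : (3 : ℝ) = ((3 : ℕ) : ℝ) * 1 := by norm_num
    rw [h4, Real.exp_nat_mul]
    calc (20 : ℝ) < 2.7182818283 ^ 3 := by norm_num
      _ ≤ Real.exp 1 ^ 3 := pow_le_pow_left₀ (by norm_num) Real.exp_one_gt_d9.le 3
  rw [Real.exp_neg, inv_lt_comm₀ (Real.exp_pos _) (by norm_num)]
  norm_num
  linarith

/-- The conditions on the exponents hold for j = 3 k, a = k, η = 1/20, θ = k/20. -/
theorem example_four (k : ℕ) (hk : 2 ≤ k) :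
    (k : ℝ) * (1 - 1 / (k : ℝ)) ^ (3 * k) < (k : ℝ) / 20 ∧
    (k : ℝ) * (1 - 1 / (k : ℝ)) ^ (3 * k) < (1 / 20 : ℝ) * (k : ℝ) := by
  have hk0 : (0 : ℝ) < k := by exact_mod_cast (by omega : 0 < k)
  have h1 := Pool.Agent.TH882.WM.exp_bound hk (3 * k)
  have h2 : -(((3 * k : ℕ) : ℝ) / k) = -3 := by
    push_cast
    field_simp
  rw [h2] at h1
  have h3 : (1 - 1 / (k : ℝ)) ^ (3 * k) < 1 / 20 := h1.trans_lt exp_num
  have h4 : (k : ℝ) * (1 - 1 / (k : ℝ)) ^ (3 * k) < k * (1 / 20) := mul_lt_mul_of_pos_left h3 hk0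
  constructor <;> linarith

/-- Let k ≥ 2, j + a ≥ 4 k, k (1 - 1/k)^j < θ ≤ k - 1, k (1 - 1/k)^j < η a, and let Q be a set of
indices which modulo every m is rich of exponent η and has a syndetic complement. Let w(n) → ∞.
There is a function M with M(n) ≤ w(n) for all large n, such that every m divides M(n) for all
large n, and such that the following holds for independent u_n, uniform in {0, …, ⌊n^θ⌋}. Almost
surely, for all s ≥ j + a, every large integer is a sum of exactly s members of the sequence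
n^k + M(n) u_n (n in Q), n^k (n not in Q). -/
theorem result (k j a : ℕ) (θ η : ℝ) (Q : Set ℕ) (w : ℕ → ℕ) (hk : 2 ≤ k) (hs : 4 * k ≤ j + a)
    (h1 : (k : ℝ) * (1 - 1 / (k : ℝ)) ^ j < θ) (h2 : θ ≤ (k : ℝ) - 1) (hη : 0 < η)
    (h3 : (k : ℝ) * (1 - 1 / (k : ℝ)) ^ j < η * a) (hQ : ∀ m, 1 ≤ m → Rich m η Q)
    (hQc : ∀ m, 1 ≤ m → SyndeticComplement m Q) (hw : Tendsto w atTop atTop) :
    ∃ M : ℕ → ℕ, (∀ m, 1 ≤ m → ∀ᶠ n in atTop, m ∣ M n) ∧ (∀ᶠ n in atTop, M n ≤ w n) ∧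
      ∀ᵐ u ∂(Measure.infinitePi (noise θ)), ∀ s, j + a ≤ s →
        ∀ᶠ N in atTop, IsSum k s Q M u N := by
  classical
  have hQ' : ∀ m, 1 ≤ m → Pool.Agent.TH882.WM.Rich m η Q := by
    intro m hm
    obtain ⟨κ, hκ, hQm⟩ := hQ m hm
    refine ⟨κ, hκ, ?_⟩
    filter_upwards [hQm] with X hX r hr
    have hfin : ({n : ℕ | n ∈ Q ∧ X < n ∧ n ≤ 2 * X ∧ n ≡ r [MOD m]}).Finite :=
      (Set.finite_Icc 0 (2 * X)).subset (fun n hn => ⟨Nat.zero_le _, hn.2.2.1⟩)
    refine ⟨hfin.toFinset, ?_, ?_⟩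
    · intro n hn
      exact (Set.Finite.mem_toFinset hfin).1 hn
    · have h4 := hX r hr
      rw [Set.ncard_eq_toFinset_card _ hfin] at h4
      exact h4
  have hD : ∀ m, 1 ≤ m → ∃ L, 1 ≤ L ∧ Pool.Agent.TH882.WM.Dense m L Qᶜ := by
    intro m hm
    obtain ⟨L, hL⟩ := hQc m hm
    refine ⟨L + 1, by omega, ?_⟩
    intro r hr x
    obtain ⟨n, hn1, hn2, hn3, hn4⟩ := hL r hr x
    exact ⟨n, hn1, hn2, hn3, by omega⟩
  exact Pool.Agent.TH882.WM.adelic hk h2 hη h1 h3 hQ' hD hs w hw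

end Pool.Agent.Results.MP_ee77ae_nt.AdelicallySmallChanges
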