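import Pool.Agent.TH882.WM5
import Pool.Agent.TH882.WM7

/-!
Tiny random perturbations of the k-th powers: 4 k positive summands suffice.
-/

set_option autoImplicit false

namespace Pool.Agent.Results.MP_ee77ae_nt.TinyPerturbations

open MeasureTheory Filter

/-- The uniform probability measure on {0, 1, …, ⌊n^θ⌋}. -/
noncomputable def noise (θ : ℝ) (n : ℕ) : Measure ℕ :=
  (PMF.uniformOfFinset (Finset.range (⌊(n : ℝ) ^ θ⌋₊ + 1)) (by simp)).toMeasure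

/-- N is a sum of exactly s perturbed k-th powers n^k + m u_n with n ≥ 1. -/
def IsSum (k m s : ℕ) (u : ℕ → ℕ) (N : ℕ) : Prop :=
  ∃ f : Fin s → ℕ, (∀ l, 1 ≤ f l) ∧ N = ∑ l, (f l ^ k + m * u (f l))

lemma exp_num : Real.exp (-(47 / 12 : ℝ)) < 1 / 50 := by
  have h1 : (50 : ℝ) < Real.exp (47 / 12) := by
    have h2 : (50 : ℝ) ^ 12 < Real.exp (47 / 12) ^ 12 := by
      rw [← Real.exp_nat_mul]
      have h3 : ((12 : ℕ) : ℝ) * (47 / 12) = ((47 : ℕ) : ℝ) * 1 := by norm_num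
      rw [h3, Real.exp_nat_mul]
      calc (50 : ℝ) ^ 12 < 2.7182818283 ^ 47 := by norm_num
        _ ≤ Real.exp 1 ^ 47 := pow_le_pow_left₀ (by norm_num) Real.exp_one_gt_d9.le 47
    exact lt_of_pow_lt_pow_left₀ 12 (Real.exp_pos _).le h2
  rw [Real.exp_neg, inv_lt_comm₀ (Real.exp_pos _) (by norm_num)]
  norm_num
  linarith

/-- the number of greedy steps. -/
lemma steps {k : ℕ} (hk : 2 ≤ k) : ∃ j : ℕ, (1 - 1 / (k : ℝ)) ^ j < 1 / 50 ∧
    (k : ℝ) * (1 - 1 / (k : ℝ)) ^ j < ((4 * k : ℕ) : ℝ) - j := by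
  have hkr : (2 : ℝ) ≤ k := by exact_mod_cast hk
  have hk0 : (0 : ℝ) < k := by linarith
  rcases Nat.lt_or_ge k 16 with hk16 | hk16
  · refine ⟨4 * k - 1, ?_, ?_⟩
    · interval_cases k <;> norm_num
    · interval_cases k <;> norm_num
  · have hk16r : (16 : ℝ) ≤ k := by exact_mod_cast hk16
    set j : ℕ := ⌈(47 / 12 : ℝ) * k⌉₊ with hj
    have hj1 : (47 / 12 : ℝ) * k ≤ j := Nat.le_ceil _
    have hj2 : (j : ℝ) < (47 / 12 : ℝ) * k + 1 := Nat.ceil_lt_add_one (by positivity)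
    have h3 : (1 - 1 / (k : ℝ)) ^ j < 1 / 50 := by
      refine lt_of_le_of_lt (Pool.Agent.TH882.WM.exp_bound hk j) (lt_of_le_of_lt ?_ exp_num)
      apply Real.exp_le_exp.2
      have : (47 / 12 : ℝ) ≤ (j : ℝ) / k := by
        rw [le_div_iff₀ hk0]
        exact hj1
      linarith
    refine ⟨j, h3, ?_⟩
    have h4 : (k : ℝ) * (1 - 1 / (k : ℝ)) ^ j < k * (1 / 50) := mul_lt_mul_of_pos_left h3 hk0
    push_cast
    linarith

/-- Let k ≥ 2 and m ≥ 1 be arbitrary, and k / 50 ≤ θ ≤ k - 1. Let u_n be independent and uniform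
in {0, …, ⌊n^θ⌋}. Almost surely, for all s ≥ 4 k, every large integer is a sum of exactly s
numbers n^k + m u_n, n ≥ 1. -/
theorem result (k m : ℕ) (θ : ℝ) (hk : 2 ≤ k) (hm : 1 ≤ m)
    (h1 : (k : ℝ) / 50 ≤ θ) (h2 : θ ≤ (k : ℝ) - 1) :
    ∀ᵐ u ∂(Measure.infinitePi (noise θ)), ∀ s, 4 * k ≤ s →
      ∀ᶠ N in atTop, IsSum k m s u N := by
  have hk0 : (0 : ℝ) < k := by exact_mod_cast (by omega : 0 < k)
  obtain ⟨j, h3, h4⟩ := steps hk
  have h5 : (k : ℝ) * (1 - 1 / (k : ℝ)) ^ j < θ := by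
    have h6 : (k : ℝ) * (1 - 1 / (k : ℝ)) ^ j < k * (1 / 50) := mul_lt_mul_of_pos_left h3 hk0
    linarith
  have h7 := Pool.Agent.TH882.WM.main_range (s₀ := 4 * k) hk hm h2 h5 h4
  filter_upwards [h7] with u hu s hs
  filter_upwards [hu s hs] with N hN
  exact hN.2 (Pool.Agent.TH882.WM.loc_four (by omega) hm hs N)

end Pool.Agent.Results.MP_ee77ae_nt.TinyPerturbations
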